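import Mathlib
import Pool.Agent.Helper75.CG.Loc
import Pool.Agent.Helper88.AG.Tors

/-!
# Component growth: from the finite scale inequality to growth

The sets `{(x, x') : ‖N • (x - x')‖ ≤ N ^ 2 / 2 ^ K}` decrease to `{N • (x - x') = 0}`, which is a null
set for `ν × ν` if `ν` has no atoms.
-/

set_option autoImplicit false

open MeasureTheory Filter Topology Helper35.AG
open scoped ENNReal

namespace Pool.Agent.Helper88.CG

/-- pairs whose difference is nearly torsion -/
def near (N K : ℕ) : Set (Tor × Tor) := {p | ‖N • (p.1 - p.2)‖ ≤ N * (N * (1 / 2 ^ K))}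

theorem isClosed_near (N K : ℕ) : IsClosed (near N K) :=
  isClosed_le (by fun_prop) continuous_const

theorem near_anti (N : ℕ) : Antitone (near N) := by
  intro K L hKL p hp
  refine le_trans (show ‖N • (p.1 - p.2)‖ ≤ _ from hp) ?_
  have h2 : (1 : ℝ) / 2 ^ L ≤ 1 / 2 ^ K :=
    one_div_le_one_div_of_le (by positivity) (pow_le_pow_right₀ (by norm_num) hKL)
  gcongr

theorem iInter_near (N : ℕ) : ⋂ K, near N K ⊆ {p | N • (p.1 - p.2) = 0} := by
  intro p hp
  rw [Set.mem_iInter] at hp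
  have h1 : Tendsto (fun K : ℕ => (N : ℝ) * (N * (1 / 2 ^ K))) atTop (𝓝 (N * (N * 0))) := by
    refine Tendsto.const_mul _ (Tendsto.const_mul _ ?_)
    have := tendsto_pow_atTop_nhds_zero_of_lt_one (r := (1 / 2 : ℝ)) (by norm_num) (by norm_num)
    simpa using this
  have h2 : ‖N • (p.1 - p.2)‖ ≤ (N : ℝ) * (N * 0) := ge_of_tendsto' h1 fun K => hp K
  have h3 : ‖N • (p.1 - p.2)‖ = 0 := le_antisymm (by simpa using h2) (norm_nonneg _)
  exact norm_eq_zero.1 h3

theorem null {ν : Measure Tor} [IsProbabilityMeasure ν] (hat : ∀ x, ν {x} = 0) {N : ℕ}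
    (hN : 1 ≤ N) : (ν.prod ν) {p | N • (p.1 - p.2) = 0} = 0 := by
  have hm : MeasurableSet {p : Tor × Tor | N • (p.1 - p.2) = 0} :=
    (isClosed_eq (by fun_prop) continuous_const).measurableSet
  rw [Measure.prod_apply hm]
  have : ∀ x : Tor, ν (Prod.mk x ⁻¹' {p : Tor × Tor | N • (p.1 - p.2) = 0}) = 0 := by
    intro x
    have hf : (Prod.mk x ⁻¹' {p : Tor × Tor | N • (p.1 - p.2) = 0}).Finite := by
      have h1 : {u : Tor | N • u = 0}.Finite := AddCircle.finite_torsion 1 hN
      refine (h1.image fun u => x - u).subset fun y hy => ?_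
      exact ⟨x - y, hy, sub_sub_cancel x y⟩
    have h2 := (measure_biUnion_null_iff (μ := ν) (s := fun y => {y}) hf.countable).2
      fun y _ => hat y
    rwa [Set.biUnion_of_singleton] at h2
  rw [lintegral_congr this, lintegral_zero]

/-- if the nearly torsion differences have mass at least `h` at infinitely many scales then `ν` has
an atom -/
theorem not_frequently {ν : Measure Tor} [IsProbabilityMeasure ν] (hat : ∀ x, ν {x} = 0) {N : ℕ}
    (hN : 1 ≤ N) {h : ℝ} (hh : 0 < h) : ¬ ∃ᶠ K in atTop, h ≤ (ν.prod ν).real (near N K) := by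
  intro hf
  have h1 : ∀ K, h ≤ (ν.prod ν).real (near N K) := by
    intro K
    obtain ⟨L, hL, hL2⟩ := (frequently_atTop.1 hf) K
    exact hL2.trans (measureReal_mono (near_anti N hL))
  have h2 : Tendsto (fun K => (ν.prod ν) (near N K)) atTop (𝓝 ((ν.prod ν) (⋂ K, near N K))) :=
    tendsto_measure_iInter_atTop (fun K => (isClosed_near N K).measurableSet.nullMeasurableSet)
      (near_anti N) ⟨0, measure_ne_top _ _⟩
  have h3 : (ν.prod ν) (⋂ K, near N K) = 0 :=
    measure_mono_null (iInter_near N) (null hat hN)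
  rw [h3] at h2
  have h4 : ENNReal.ofReal h ≤ 0 := by
    refine ge_of_tendsto' h2 fun K => ?_
    rw [ENNReal.ofReal_le_iff_le_toReal (measure_ne_top _ _)]
    exact h1 K
  simp only [nonpos_iff_eq_zero, ENNReal.ofReal_eq_zero] at h4
  exact h4.not_gt hh

/-- overlaps give nearly torsion differences -/
theorem exists_near {μ : Measure Tor} [IsProbabilityMeasure μ] (hμ : Inv μ)
    (hs : Measure.MutuallySingular μ volume) {h : ℝ} (hh : 0 < h) :
    ∃ N : ℕ, 1 ≤ N ∧ ∀ K, {p : Tor × Tor | h ≤ ov μ K p.1 p.2} ⊆ near N K := by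
  obtain ⟨N, hN, H⟩ := Pool.Agent.Helper88.AG.near_of_singular hμ hs h hh
  refine ⟨N, hN, fun K p hp => ?_⟩
  obtain ⟨f, hf, hle⟩ := H (p.1 - p.2) (1 / 2 ^ K) (by positivity) (pop_of_ov hp)
  show ‖N • (p.1 - p.2)‖ ≤ N * (N * (1 / 2 ^ K))
  have h1 : N • (p.1 - p.2) = N • (p.1 - p.2 - f) := by rw [smul_sub N (p.1 - p.2) f, hf, sub_zero]
  rw [h1]
  refine (norm_nsmul_le).trans ?_
  gcongr

/-- **Component growth**, with the density of the component. -/
theorem growth {μ ν : Measure Tor} [IsProbabilityMeasure μ] [IsProbabilityMeasure ν]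
    (hμ : Inv μ) (hs : Measure.MutuallySingular μ volume) (hat : ∀ x, ν {x} = 0) {C : ℝ}
    (hC : 1 ≤ C) {g : Tor → ℝ} (hg : Measurable g) (h0 : ∀ x, 0 ≤ g x) (h1 : ∀ x, g x ≤ C)
    (hm : ((μ.prod ν).withDensity fun p => ENNReal.ofReal (g (p.1 + p.2))).map Prod.fst = μ) :
    Tendsto (fun K => ent ((conv μ ν).withDensity fun x => ENNReal.ofReal (g x)) K - ent μ K)
      atTop atTop := by
  rw [tendsto_atTop]
  intro D
  obtain ⟨h, hh, H⟩ := Helper75.CG.loc C D hC
  obtain ⟨N, hN, hN2⟩ := exists_near hμ hs hh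
  by_contra hcon
  rw [not_eventually] at hcon
  refine not_frequently hat hN hh (hcon.mono fun K hK => ?_)
  push Not at hK
  exact (H μ ν g hg h0 h1 hm K (by linarith)).trans (measureReal_mono (hN2 K))

/-- F3 from F2: `h` is the conclusion of `marg`. -/
theorem comp_growth_of {μ ν lam : Measure Tor} [IsProbabilityMeasure μ] [IsProbabilityMeasure ν]
    (hμ : Inv μ) (hs : Measure.MutuallySingular μ volume) (hat : ∀ x, ν {x} = 0)
    (h : ∃ (C : ℝ) (g : Tor → ℝ), 1 ≤ C ∧ Measurable g ∧ (∀ x, 0 ≤ g x) ∧ (∀ x, g x ≤ C) ∧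
      lam = (conv μ ν).withDensity (fun x => ENNReal.ofReal (g x)) ∧
      ((μ.prod ν).withDensity fun p => ENNReal.ofReal (g (p.1 + p.2))).map Prod.fst = μ) :
    Tendsto (fun K => ent lam K - ent μ K) atTop atTop := by
  obtain ⟨C, g, hC, hg, h0, h1, rfl, hm⟩ := h
  exact growth hμ hs hat hC hg h0 h1 hm

end Pool.Agent.Helper88.CG
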